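import Pool.Agent.TH212.CuspVar

/-!
The Poisson surface `X = Spec (ℂ + (x, y)^2)`: the zeroth Poisson homology has dimension one.
The plane: the second algebraic de Rham cohomology vanishes.
-/

set_option autoImplicit false

namespace Pool.Agent.Q221.NN

open Pool.Agent.TH212 MvPolynomial

/-- The exterior derivative `g dx + h dy ↦ (∂_x h - ∂_y g) dx ∧ dy` from the one-forms to the
two-forms on the affine plane with coordinate ring `ℂ[x, y]`. -/
noncomputable def extD : MvPolynomial (Fin 2) ℂ × MvPolynomial (Fin 2) ℂ →ₗ[ℂ] MvPolynomial (Fin 2) ℂ :=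
  (pderiv 0 : Derivation ℂ (MvPolynomial (Fin 2) ℂ) (MvPolynomial (Fin 2) ℂ)).toLinearMap ∘ₗ
      LinearMap.snd ℂ _ _ -
    (pderiv 1 : Derivation ℂ (MvPolynomial (Fin 2) ℂ) (MvPolynomial (Fin 2) ℂ)).toLinearMap ∘ₗ
      LinearMap.fst ℂ _ _

theorem extD_apply (g h : MvPolynomial (Fin 2) ℂ) :
    extD (g, h) = pderiv 0 h - pderiv 1 g := rfl

/-- The second algebraic de Rham cohomology of the affine plane: the two-forms modulo the exact
ones (every two-form is closed). -/
abbrev H2dR : Type := MvPolynomial (Fin 2) ℂ ⧸ LinearMap.range extD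

/-- Every polynomial has an `x`-antiderivative. -/
theorem exists_antideriv (f : MvPolynomial (Fin 2) ℂ) : ∃ h, pderiv 0 h = f := by
  induction f using MvPolynomial.induction_on' with
  | monomial u a =>
    refine ⟨monomial (u + Finsupp.single 0 1) (a / ((u 0 : ℂ) + 1)), ?_⟩
    rw [pderiv_monomial]
    have h1 : u + Finsupp.single 0 1 - Finsupp.single 0 1 = u := by
      simp
    rw [h1]
    congr 1
    simp only [Finsupp.coe_add, Pi.add_apply, Finsupp.single_eq_same, Nat.cast_add, Nat.cast_one]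
    have : (u 0 : ℂ) + 1 ≠ 0 := by
      exact_mod_cast Nat.succ_ne_zero (u 0)
    field_simp
  | add p q hp hq =>
    obtain ⟨a, ha⟩ := hp
    obtain ⟨b, hb⟩ := hq
    exact ⟨a + b, by rw [map_add, ha, hb]⟩

theorem range_extD : LinearMap.range extD = ⊤ := by
  rw [LinearMap.range_eq_top]
  intro f
  obtain ⟨h, hh⟩ := exists_antideriv f
  exact ⟨(0, h), by rw [extD_apply, hh, map_zero, sub_zero]⟩

theorem subsingleton_H2dR : Subsingleton H2dR := by
  rw [Submodule.Quotient.subsingleton_iff]
  exact range_extD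

theorem finrank_H2dR : Module.finrank ℂ H2dR = 0 := by
  have := subsingleton_H2dR
  exact Module.finrank_zero_of_subsingleton

/-- the monomials -/
theorem mono_mem {u : Fin 2 →₀ ℕ} {a : ℂ} (hu : u 0 + u 1 ≠ 1) : (monomial u a : R) ∈ OX := by
  intro i
  rw [pderiv_monomial, constantCoeff_monomial]
  split_ifs with h
  · have h0 := DFunLike.congr_fun h 0
    have h1 := DFunLike.congr_fun h 1
    simp only [Finsupp.coe_tsub, Pi.sub_apply, Finsupp.coe_zero, Pi.zero_apply] at h0 h1
    have hi : u i = 0 := by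
      by_contra hne
      apply hu
      fin_cases i
      · simp at h0 h1 hne
        omega
      · simp at h0 h1 hne
        omega
    simp [hi]
  · rfl

theorem ex_eta (u : Fin 2 →₀ ℕ) : ex (u 0) (u 1) = u := by
  ext i
  fin_cases i <;> simp [ex]

/-- Every monomial of degree at least two is a bracket of elements of `OX`. -/
theorem mono_bracket {u : Fin 2 →₀ ℕ} (a : ℂ) (hu : 2 ≤ u 0 + u 1) :
    ∃ f g : OX, pb (f : R) (g : R) = monomial u a := by
  by_cases h : u 0 = u 1
  · -- `{y^2, x^(n+1) y^(n-1)}`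
    have hpos : 1 ≤ u 0 := by omega
    have hc : ((u 0 : ℂ) + 1) ≠ 0 := by exact_mod_cast Nat.succ_ne_zero (u 0)
    refine ⟨⟨mo 0 2 1, ?_⟩, ⟨mo (u 0 + 1) (u 0 - 1) (a / (2 * ((u 0 : ℂ) + 1))), ?_⟩, ?_⟩
    · exact mono_mem (by rw [ex_zero, ex_one]; omega)
    · exact mono_mem (by rw [ex_zero, ex_one]; omega)
    · change pb (mo 0 2 1) (mo (u 0 + 1) (u 0 - 1) (a / (2 * ((u 0 : ℂ) + 1)))) = _
      rw [pb_mo]
      have e1 : 0 + (u 0 + 1) - 1 = u 0 := by omega
      have e2 : 2 + (u 0 - 1) - 1 = u 1 := by omega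
      rw [e1, e2]
      change monomial (ex (u 0) (u 1)) _ = _
      rw [ex_eta]
      congr 1
      push_cast
      field_simp
      ring
  · have hc : ((u 0 : ℂ) - u 1) ≠ 0 := by
      rw [sub_ne_zero]
      exact_mod_cast h
    refine ⟨⟨mo 1 1 1, ?_⟩, ⟨mo (u 0) (u 1) (a / ((u 0 : ℂ) - u 1)), ?_⟩, ?_⟩
    · exact mono_mem (by rw [ex_zero, ex_one]; omega)
    · exact mono_mem (by rw [ex_zero, ex_one]; omega)
    · change pb (mo 1 1 1) (mo (u 0) (u 1) (a / ((u 0 : ℂ) - u 1))) = _
      rw [pb_mo]
      have e1 : 1 + u 0 - 1 = u 0 := by omega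
      have e2 : 1 + u 1 - 1 = u 1 := by omega
      rw [e1, e2]
      change monomial (ex (u 0) (u 1)) _ = _
      rw [ex_eta]
      congr 1
      push_cast
      field_simp

theorem support_deg {f : R} (hf : f ∈ OX) {u : Fin 2 →₀ ℕ} (hu : u ∈ f.support) (h0 : u ≠ 0) :
    2 ≤ u 0 + u 1 := by
  by_contra hlt
  have h1 : u 0 + u 1 ≠ 0 := by
    intro h
    apply h0
    ext i
    fin_cases i
    · simp
      omega
    · simp
      omega
  have hcoef : ∀ i : Fin 2, coeff (Finsupp.single i 1) f = 0 := by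
    intro i
    have := hf i
    rw [constantCoeff_eq, coeff_pderiv] at this
    simpa using this
  rw [mem_support_iff] at hu
  rcases Nat.eq_zero_or_pos (u 0) with h | h
  · have : u = Finsupp.single 1 1 := by
      ext i
      fin_cases i
      · simpa using h
      · simp
        omega
    rw [this] at hu
    exact hu (hcoef 1)
  · have : u = Finsupp.single 0 1 := by
      ext i
      fin_cases i
      · simp
        omega
      · simp
        omega
    rw [this] at hu
    exact hu (hcoef 0)

/-- `{O, O}` consists of all elements of `O` which vanish at the origin. -/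
theorem mem_brackets_of {f : OX} (h : constantCoeff (f : R) = 0) : f ∈ PO.brackets := by
  classical
  have key : ∀ (s : Finset (Fin 2 →₀ ℕ)) (c : (Fin 2 →₀ ℕ) → ℂ), (∀ u ∈ s, 2 ≤ u 0 + u 1) →
      ∃ g : OX, g ∈ PO.brackets ∧ (g : R) = ∑ u ∈ s, monomial u (c u) := by
    intro s c hs
    induction s using Finset.induction_on with
    | empty => exact ⟨0, Submodule.zero_mem _, by simp⟩
    | insert u s hu ih =>
      obtain ⟨g, hg, hg2⟩ := ih (fun v hv => hs v (Finset.mem_insert_of_mem hv))
      obtain ⟨p, q, hpq⟩ := mono_bracket (c u) (hs u (Finset.mem_insert_self _ _))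
      refine ⟨PO.br p q + g, Submodule.add_mem _ (Submodule.subset_span ⟨p, q, rfl⟩) hg, ?_⟩
      rw [Finset.sum_insert hu, ← hg2, ← hpq]
      rfl
  obtain ⟨g, hg, hg2⟩ := key (f : R).support (fun u => coeff u (f : R)) (by
    intro u hu
    refine support_deg f.2 hu ?_
    rintro rfl
    rw [mem_support_iff] at hu
    exact hu h)
  have : g = f := by
    apply Subtype.ext
    rw [hg2]
    exact (MvPolynomial.as_sum (f : R)).symm
  rw [← this]
  exact hg

theorem finrank_HP0 : Module.finrank ℂ PO.HP0 = 1 := by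
  apply finrank_eq_one (Submodule.Quotient.mk (1 : OX))
  · intro h
    rw [Submodule.Quotient.mk_eq_zero] at h
    exact one_notMem h
  · intro w
    obtain ⟨f, rfl⟩ := Submodule.Quotient.mk_surjective _ w
    refine ⟨constantCoeff (f : R), ?_⟩
    rw [← Submodule.Quotient.mk_smul, Submodule.Quotient.eq]
    apply mem_brackets_of
    change constantCoeff ((constantCoeff (f : R)) • (1 : R) - (f : R)) = 0
    rw [map_sub, MvPolynomial.smul_eq_C_mul, mul_one, constantCoeff_C, sub_self]

end Pool.Agent.Q221.NN
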