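import Pool.Agent.Q221.NN.HP

/-!
For every deformation quantization `A` of the symplectic plane, `HH_0(A[ħ⁻¹]) = 0`.
-/

set_option autoImplicit false

open scoped TensorProduct

namespace Pool.Agent.Q221.NN

open Pool.Agent.TH212 MvPolynomial

section

variable {A : Type} [Ring A] [Algebra (PowerSeries ℂ) A] {π : A →+* R}

theorem X_smul_cancel (h : IsDeformationQuantization PR π) {a b : A}
    (e : (PowerSeries.X : PowerSeries ℂ) • a = (PowerSeries.X : PowerSeries ℂ) • b) : a = b := by
  have h1 := h.torsionFree (a - b) (by rw [smul_sub, e, sub_self])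
  exact sub_eq_zero.mp h1

/-- Every element `a` satisfies `ħ a = [y, b]`. -/
theorem exists_commutator (h : IsDeformationQuantization PR π) :
    ∃ y : A, ∀ a : A, ∃ b : A, y * b - b * y = (PowerSeries.X : PowerSeries ℂ) • a := by
  classical
  have := h.complete
  obtain ⟨y, hy⟩ := h.surjective (X 1)
  refine ⟨y, ?_⟩
  have hex : ∀ b : A, ∃ c : A, y * b - b * y = (PowerSeries.X : PowerSeries ℂ) • c ∧
      π c = pderiv 0 (π b) := by
    intro b
    obtain ⟨c, hc, hc2⟩ := h.bracket y b
    refine ⟨c, hc, ?_⟩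
    rw [hc2, hy]
    change pb _ _ = _
    rw [pb_apply, pderiv_X_self, pderiv_X_of_ne (show (1 : Fin 2) ≠ 0 by decide)]
    ring
  choose φ hφ hφ2 using hex
  let F : A →ₗ[PowerSeries ℂ] A :=
    { toFun := φ
      map_add' := by
        intro b c
        apply X_smul_cancel h
        rw [← hφ, smul_add, ← hφ, ← hφ]
        noncomm_ring
      map_smul' := by
        intro r b
        apply X_smul_cancel h
        rw [← hφ, RingHom.id_apply, smul_comm, ← hφ, mul_smul_comm, smul_mul_assoc, smul_sub] }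
  have hs : Function.Surjective F := by
    apply surjective_of_mkQ_comp_surjective (I := Ideal.span {(PowerSeries.X : PowerSeries ℂ)})
    intro z
    obtain ⟨a, rfl⟩ := Submodule.mkQ_surjective _ z
    obtain ⟨f, hf⟩ := exists_antideriv (π a)
    obtain ⟨b, hb⟩ := h.surjective f
    refine ⟨b, ?_⟩
    rw [LinearMap.comp_apply, ← sub_eq_zero, ← map_sub, Submodule.mkQ_apply,
      Submodule.Quotient.mk_eq_zero]
    have h1 : π (F b - a) = 0 := by
      rw [map_sub, sub_eq_zero]
      change π (φ b) = _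
      rw [hφ2, hb, hf]
    obtain ⟨c, hc⟩ := (h.ker _).mp h1
    rw [hc]
    exact Submodule.smul_mem_smul (Ideal.subset_span rfl) trivial
  intro a
  obtain ⟨b, hb⟩ := hs a
  exact ⟨b, by rw [hφ b]; rw [← hb]; rfl⟩

theorem tmul_mem (h : IsDeformationQuantization PR π) (u : LaurentSeries ℂ) (a : A) :
    u ⊗ₜ[PowerSeries ℂ] a ∈ commutators A := by
  obtain ⟨y, hy⟩ := exists_commutator h
  obtain ⟨b, hb⟩ := hy a
  have h1 : u ⊗ₜ[PowerSeries ℂ] a =
      ((u * HahnSeries.single (-1) 1) ⊗ₜ[PowerSeries ℂ] y) * ((1 : LaurentSeries ℂ) ⊗ₜ b) -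
      ((1 : LaurentSeries ℂ) ⊗ₜ b) * ((u * HahnSeries.single (-1) 1) ⊗ₜ[PowerSeries ℂ] y) := by
    rw [Algebra.TensorProduct.tmul_mul_tmul, Algebra.TensorProduct.tmul_mul_tmul, mul_one, one_mul,
      ← TensorProduct.tmul_sub, hb, TensorProduct.tmul_smul, TensorProduct.smul_tmul']
    congr 1
    rw [Algebra.smul_def, LaurentSeries.coe_algebraMap, HahnSeries.ofPowerSeries_X,
      mul_comm u, ← mul_assoc, HahnSeries.single_mul_single]
    simp
  rw [h1]
  exact AddSubgroup.subset_closure ⟨_, _, rfl⟩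

theorem commutators_eq_top (h : IsDeformationQuantization PR π) : commutators A = ⊤ := by
  rw [eq_top_iff]
  intro z _
  induction z using TensorProduct.induction_on with
  | zero => exact AddSubgroup.zero_mem _
  | tmul u a => exact tmul_mem h u a
  | add x y hx hy => exact AddSubgroup.add_mem _ (hx trivial) (hy trivial)

theorem subsingleton_HH0 (h : IsDeformationQuantization PR π) : Subsingleton (HH0 A) := by
  have : Subsingleton (Loc A ⧸ commutators A) := by
    rw [QuotientAddGroup.subsingleton_iff]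
    exact commutators_eq_top h
  exact this

theorem Fil_eq_zero (h : IsDeformationQuantization PR π) (n : ℤ) : Fil A n = {0} := by
  have := subsingleton_HH0 h
  ext ξ
  rw [Set.mem_singleton_iff]
  exact ⟨fun _ => Subsingleton.elim _ _, fun _ => ⟨0, Subsingleton.elim _ _⟩⟩

theorem Fil_eq (h : IsDeformationQuantization PR π) (n : ℤ) :
    Fil A (n + 1) = Fil A n ∧ Fil A n = {0} := by
  rw [Fil_eq_zero h, Fil_eq_zero h]
  exact ⟨rfl, rfl⟩

end

end Pool.Agent.Q221.NN
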