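import Pool.Agent.Q221.NN.Plane

/-!
The symplectic plane has a deformation quantization: the algebra of all `ℂ⟦ħ⟧`-linear operators on
`ℂ[x, y]⟦ħ⟧` which commute with `f ↦ x f + ħ ∂_y f` and `f ↦ y f` (the completed Weyl algebra
acting on itself from the left).
-/

set_option autoImplicit false

namespace Pool.Agent.Q221.NN

open Pool.Agent.TH212

/-- `ℂ[x, y]⟦ħ⟧` -/
abbrev S : Type := PowerSeries (MvPolynomial (Fin 2) ℂ)

/-- `ℂ⟦ħ⟧` -/
abbrev K : Type := PowerSeries ℂ

theorem smul_S (c : K) (f : S) :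
    c • f = PowerSeries.map (algebraMap ℂ (MvPolynomial (Fin 2) ℂ)) c * f := rfl

theorem coeff_smul_S (n : ℕ) (c : K) (f : S) : PowerSeries.coeff n (c • f) =
    ∑ p ∈ Finset.HasAntidiagonal.antidiagonal n, PowerSeries.coeff p.1 c • PowerSeries.coeff p.2 f := by
  rw [smul_S, PowerSeries.coeff_mul]
  refine Finset.sum_congr rfl fun p _ => ?_
  rw [PowerSeries.coeff_map, Algebra.smul_def]

theorem X_smul_S (f : S) : (PowerSeries.X : K) • f = PowerSeries.X * f := by
  rw [smul_S, PowerSeries.map_X]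

theorem Xpow_smul_S (n : ℕ) (f : S) : (PowerSeries.X : K) ^ n • f = PowerSeries.X ^ n * f := by
  rw [smul_S, map_pow, PowerSeries.map_X]

/-- A derivation of `ℂ[x, y]`, applied to the coefficients. -/
noncomputable def ext (D : Derivation ℂ (MvPolynomial (Fin 2) ℂ) (MvPolynomial (Fin 2) ℂ)) :
    S →ₗ[K] S where
  toFun f := PowerSeries.mk fun n => D (PowerSeries.coeff n f)
  map_add' f g := by
    ext n : 1
    simp
  map_smul' c f := by
    ext n : 1
    simp only [PowerSeries.coeff_mk, RingHom.id_apply]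
    rw [coeff_smul_S, coeff_smul_S, map_sum]
    refine Finset.sum_congr rfl fun p _ => ?_
    rw [Derivation.map_smul, PowerSeries.coeff_mk]

theorem coeff_ext (D : Derivation ℂ (MvPolynomial (Fin 2) ℂ) (MvPolynomial (Fin 2) ℂ)) (f : S)
    (n : ℕ) : PowerSeries.coeff n (ext D f) = D (PowerSeries.coeff n f) := by
  change PowerSeries.coeff n (PowerSeries.mk fun n => D (PowerSeries.coeff n f)) =
    D (PowerSeries.coeff n f)
  rw [PowerSeries.coeff_mk]

attribute [irreducible] ext

theorem ext_mul (D : Derivation ℂ (MvPolynomial (Fin 2) ℂ) (MvPolynomial (Fin 2) ℂ)) (f g : S) :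
    ext D (f * g) = ext D f * g + f * ext D g := by
  ext n : 1
  rw [coeff_ext, map_add, PowerSeries.coeff_mul, PowerSeries.coeff_mul, PowerSeries.coeff_mul,
    map_sum, ← Finset.sum_add_distrib]
  refine Finset.sum_congr rfl fun p _ => ?_
  rw [coeff_ext, coeff_ext, Derivation.leibniz, smul_eq_mul, smul_eq_mul]
  ring

theorem ext_C (D : Derivation ℂ (MvPolynomial (Fin 2) ℂ) (MvPolynomial (Fin 2) ℂ))
    (f : MvPolynomial (Fin 2) ℂ) : ext D (PowerSeries.C f) = PowerSeries.C (D f) := by
  ext n : 1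
  rw [coeff_ext, PowerSeries.coeff_C, PowerSeries.coeff_C]
  split_ifs with h
  · rfl
  · rw [map_zero]

/-- `∂_x` and `∂_y` on `S`. -/
noncomputable def Dx : S →ₗ[K] S := ext (MvPolynomial.pderiv 0)
noncomputable def Dy : S →ₗ[K] S := ext (MvPolynomial.pderiv 1)

/-- the elements `x`, `y` of `S` -/
noncomputable def sx : S := PowerSeries.C (MvPolynomial.X 0)
noncomputable def sy : S := PowerSeries.C (MvPolynomial.X 1)

theorem Dx_mul (f g : S) : Dx (f * g) = Dx f * g + f * Dx g := ext_mul _ f g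
theorem Dy_mul (f g : S) : Dy (f * g) = Dy f * g + f * Dy g := ext_mul _ f g

theorem Dx_sx : Dx sx = 1 := by
  unfold Dx sx
  rw [ext_C, MvPolynomial.pderiv_X_self, map_one]

theorem Dx_sy : Dx sy = 0 := by
  unfold Dx sy
  rw [ext_C, MvPolynomial.pderiv_X_of_ne (show (1 : Fin 2) ≠ 0 by decide), map_zero]

theorem Dy_sx : Dy sx = 0 := by
  unfold Dy sx
  rw [ext_C, MvPolynomial.pderiv_X_of_ne (show (0 : Fin 2) ≠ 1 by decide), map_zero]

theorem Dy_sy : Dy sy = 1 := by
  unfold Dy sy
  rw [ext_C, MvPolynomial.pderiv_X_self, map_one]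

theorem Dx_one : Dx 1 = 0 := by
  have := ext_C (MvPolynomial.pderiv 0) 1
  rw [map_one] at this
  unfold Dx
  rw [this]
  simp

theorem Dy_one : Dy 1 = 0 := by
  have := ext_C (MvPolynomial.pderiv 1) 1
  rw [map_one] at this
  unfold Dy
  rw [this]
  simp

theorem Dx_Dy (f : S) : Dx (Dy f) = Dy (Dx f) := by
  ext n : 1
  unfold Dx Dy
  rw [coeff_ext, coeff_ext, coeff_ext, coeff_ext]
  exact pderiv_comm' 0 1 _

theorem Dx_Xpow (n : ℕ) (f : S) : Dx (PowerSeries.X ^ n * f) = PowerSeries.X ^ n * Dx f := by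
  rw [← Xpow_smul_S, ← Xpow_smul_S, map_smul]

theorem Dy_Xpow (n : ℕ) (f : S) : Dy (PowerSeries.X ^ n * f) = PowerSeries.X ^ n * Dy f := by
  rw [← Xpow_smul_S, ← Xpow_smul_S, map_smul]

theorem Dx_iter_Dy (k : ℕ) (f : S) : (Dx ^ k) (Dy f) = Dy ((Dx ^ k) f) := by
  induction k with
  | zero => rfl
  | succ k ih => rw [pow_succ', Module.End.mul_apply, Module.End.mul_apply, ih, Dx_Dy]

theorem Dy_iter_succ (k : ℕ) (f : S) : (Dy ^ k) (Dy f) = Dy ((Dy ^ k) f) := by
  rw [← Module.End.mul_apply, ← Module.End.mul_apply, ← pow_succ, ← pow_succ']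

theorem Dx_iter_sx (k : ℕ) (f : S) :
    (Dx ^ k) (sx * f) = sx * (Dx ^ k) f + (k : S) * (Dx ^ (k - 1)) f := by
  induction k with
  | zero => simp
  | succ k ih =>
    rw [pow_succ', Module.End.mul_apply, ih, map_add Dx, Dx_mul, Dx_sx, one_mul]
    have h1 : Dx ((k : S) * (Dx ^ (k - 1)) f) = (k : S) * (Dx ^ k) f := by
      rcases Nat.eq_zero_or_pos k with rfl | hk
      · simp
      · rw [← nsmul_eq_mul, map_nsmul, nsmul_eq_mul, ← Module.End.mul_apply, ← pow_succ',
          Nat.sub_add_cancel hk]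
    rw [h1, Nat.add_sub_cancel, Module.End.mul_apply]
    push_cast
    ring

theorem Dx_iter_sy (k : ℕ) (f : S) : (Dx ^ k) (sy * f) = sy * (Dx ^ k) f := by
  induction k with
  | zero => simp
  | succ k ih =>
    rw [pow_succ', Module.End.mul_apply, ih, Dx_mul, Dx_sy, zero_mul, zero_add,
      Module.End.mul_apply]

theorem Dx_iter_one (k : ℕ) (hk : k ≠ 0) : (Dx ^ k) (1 : S) = 0 := by
  obtain ⟨m, rfl⟩ := Nat.exists_eq_succ_of_ne_zero hk
  rw [pow_succ, Module.End.mul_apply, Dx_one, map_zero]

/-- the rational scalars -/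
noncomputable def rf (k : ℕ) : ℂ := ((k.factorial : ℂ))⁻¹

theorem rf_succ (k : ℕ) : rf (k + 1) * ((k : ℂ) + 1) = rf k := by
  unfold rf
  rw [Nat.factorial_succ]
  have h1 : (k.factorial : ℂ) ≠ 0 := by exact_mod_cast k.factorial_ne_zero
  have h2 : (k : ℂ) + 1 ≠ 0 := by exact_mod_cast Nat.succ_ne_zero k
  push_cast
  field_simp

/-- The terms of the star product. -/
noncomputable def term (k : ℕ) (s : S) : S →ₗ[K] S :=
  (PowerSeries.C (rf k) : K) • ((PowerSeries.X : K) ^ k • (LinearMap.mulLeft K ((Dy ^ k) s) ∘ₗ Dx ^ k))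

theorem term_apply (k : ℕ) (s g : S) : term k s g =
    PowerSeries.X ^ k * ((PowerSeries.C (rf k) : K) • ((Dy ^ k) s * (Dx ^ k) g)) := by
  unfold term
  rw [LinearMap.smul_apply, LinearMap.smul_apply, smul_comm, Xpow_smul_S]
  rfl

attribute [irreducible] term

/-- The partial sums of the star product. -/
noncomputable def P (N : ℕ) (s : S) : S →ₗ[K] S := ∑ k ∈ Finset.range N, term k s

theorem P_succ (N : ℕ) (s g : S) : P (N + 1) s g = P N s g + term N s g := by
  unfold P
  rw [Finset.sum_range_succ, LinearMap.add_apply]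

theorem P_zero (s g : S) : P 0 s g = 0 := by
  simp [P]

attribute [irreducible] P

theorem dvd_P_sub {N M : ℕ} (h : N ≤ M) (s g : S) :
    (PowerSeries.X : S) ^ N ∣ P M s g - P N s g := by
  obtain ⟨d, rfl⟩ := Nat.exists_eq_add_of_le h
  induction d with
  | zero => simp
  | succ d ih =>
    rw [← add_assoc, P_succ, add_sub_right_comm]
    refine dvd_add (ih (by omega)) ?_
    rw [term_apply]
    exact dvd_mul_of_dvd_left (pow_dvd_pow _ (by omega)) _

/-- The star product as a function. -/
noncomputable def Lf (s g : S) : S := PowerSeries.mk fun n => PowerSeries.coeff n (P (n + 1) s g)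

theorem dvd_Lf_sub (N : ℕ) (s g : S) : (PowerSeries.X : S) ^ N ∣ Lf s g - P N s g := by
  rw [PowerSeries.X_pow_dvd_iff]
  intro m hm
  have h := dvd_P_sub (show m + 1 ≤ N by omega) s g
  rw [PowerSeries.X_pow_dvd_iff] at h
  have h2 := h m (by omega)
  rw [map_sub, sub_eq_zero] at h2 ⊢
  unfold Lf
  rw [PowerSeries.coeff_mk, h2]

theorem eq_of_dvd {f g : S} (h : ∀ N : ℕ, (PowerSeries.X : S) ^ N ∣ f - g) : f = g := by
  ext n : 1
  have h1 := h (n + 1)
  rw [PowerSeries.X_pow_dvd_iff] at h1
  have h2 := h1 n (by omega)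
  rw [map_sub, sub_eq_zero] at h2
  exact h2

theorem dvd_map (T : S →ₗ[K] S) {N : ℕ} {f g : S} (h : (PowerSeries.X : S) ^ N ∣ f - g) :
    (PowerSeries.X : S) ^ N ∣ T f - T g := by
  obtain ⟨q, hq⟩ := h
  rw [← map_sub, hq, ← Xpow_smul_S, map_smul, Xpow_smul_S]
  exact dvd_mul_right _ _

theorem dvd_trans3 {N : ℕ} {a b c : S} (h1 : (PowerSeries.X : S) ^ N ∣ a - b)
    (h2 : (PowerSeries.X : S) ^ N ∣ b - c) : (PowerSeries.X : S) ^ N ∣ a - c := by
  have := dvd_add h1 h2
  rwa [sub_add_sub_cancel] at this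

theorem dvd_symm {N : ℕ} {a b : S} (h1 : (PowerSeries.X : S) ^ N ∣ a - b) :
    (PowerSeries.X : S) ^ N ∣ b - a := by
  have := (dvd_neg (a := (PowerSeries.X : S) ^ N)).mpr h1
  rwa [neg_sub] at this

/-- Left star multiplication. -/
noncomputable def L (s : S) : S →ₗ[K] S where
  toFun := Lf s
  map_add' f g := by
    apply eq_of_dvd
    intro N
    refine dvd_trans3 (dvd_Lf_sub N s _) ?_
    rw [map_add]
    have := dvd_add (dvd_Lf_sub N s f) (dvd_Lf_sub N s g)
    apply dvd_symm
    rwa [add_sub_add_comm]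
  map_smul' c f := by
    apply eq_of_dvd
    intro N
    refine dvd_trans3 (dvd_Lf_sub N s _) ?_
    rw [map_smul, RingHom.id_apply]
    apply dvd_symm
    have h := dvd_map (LinearMap.lsmul K S c) (dvd_Lf_sub N s f)
    exact h

theorem dvd_L_sub (N : ℕ) (s g : S) : (PowerSeries.X : S) ^ N ∣ L s g - P N s g :=
  dvd_Lf_sub N s g

/-- right star multiplication by `x` and `y` -/
noncomputable def rx : S →ₗ[K] S := LinearMap.mulLeft K sx + (PowerSeries.X : K) • Dy
noncomputable def ry : S →ₗ[K] S := LinearMap.mulLeft K sy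

theorem rx_apply (f : S) : rx f = sx * f + PowerSeries.X * Dy f := by
  unfold rx
  rw [LinearMap.add_apply, LinearMap.smul_apply, X_smul_S]
  rfl

theorem ry_apply (f : S) : ry f = sy * f := rfl

theorem mul_smul_S (c : K) (f g : S) : f * (c • g) = c • (f * g) := by
  rw [smul_S, smul_S]
  ring

theorem P_ry (N : ℕ) (s g : S) : P N s (ry g) = ry (P N s g) := by
  induction N with
  | zero => rw [P_zero, P_zero, map_zero]
  | succ N ih =>
    rw [P_succ N s (ry g), P_succ N s g, map_add ry, ih]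
    congr 1
    rw [term_apply, term_apply, ry_apply, ry_apply, Dx_iter_sy, smul_S, smul_S]
    ring

theorem Dy_P (N : ℕ) (s g : S) : Dy (P N s g) = P N (Dy s) g + P N s (Dy g) := by
  induction N with
  | zero => rw [P_zero, P_zero, P_zero, map_zero, add_zero]
  | succ N ih =>
    rw [P_succ N s g, P_succ N (Dy s) g, P_succ N s (Dy g), map_add Dy, ih]
    have : Dy (term N s g) = term N (Dy s) g + term N s (Dy g) := by
      rw [term_apply, term_apply, term_apply, Dy_Xpow, map_smul, Dy_mul, Dx_iter_Dy, Dy_iter_succ,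
        smul_add, mul_add]
    rw [this]
    ring

theorem P_sx (N : ℕ) (s g : S) :
    P (N + 1) s (sx * g) = sx * P (N + 1) s g + PowerSeries.X * P N (Dy s) g := by
  induction N with
  | zero =>
    rw [P_succ, P_succ, term_apply, term_apply]
    simp only [P_zero, pow_zero, one_mul, Module.End.one_apply, smul_S]
    ring
  | succ N ih =>
    rw [P_succ, P_succ (N + 1) s g, P_succ N (Dy s) g, ih]
    have : term (N + 1) s (sx * g) = sx * term (N + 1) s g + PowerSeries.X * term N (Dy s) g := by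
      rw [term_apply, term_apply, term_apply, Dx_iter_sx, Nat.add_sub_cancel]
      have e1 : (Dy ^ (N + 1)) s = (Dy ^ N) (Dy s) := by
        rw [pow_succ, Module.End.mul_apply]
      rw [e1, ← rf_succ N]
      simp only [smul_S, map_mul]
      have e2 : PowerSeries.map (algebraMap ℂ (MvPolynomial (Fin 2) ℂ))
          (PowerSeries.C ((N : ℂ) + 1)) = ((N + 1 : ℕ) : S) := by
        rw [map_add, map_natCast, map_one, map_add, map_natCast, map_one]
        push_cast
        rfl
      rw [e2]
      ring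
    rw [this]
    ring

theorem L_ry (s g : S) : L s (ry g) = ry (L s g) := by
  apply eq_of_dvd
  intro N
  refine dvd_trans3 (dvd_L_sub N s _) ?_
  rw [P_ry]
  exact dvd_map ry (dvd_symm (dvd_L_sub N s g))

theorem L_rx (s g : S) : L s (rx g) = rx (L s g) := by
  apply eq_of_dvd
  intro N
  have h0 : (PowerSeries.X : S) ^ N ∣ (PowerSeries.X : S) ^ (N + 1) := pow_dvd_pow _ (by omega)
  refine dvd_trans3 (h0.trans (dvd_L_sub (N + 1) s (rx g))) ?_
  refine dvd_trans3 ?_ (dvd_map rx (dvd_symm (h0.trans (dvd_L_sub (N + 1) s g))))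
  rw [rx_apply, rx_apply, map_add (P (N + 1) s), P_sx, Dy_P, ← X_smul_S (Dy g), map_smul, X_smul_S]
  have h1 := dvd_symm (dvd_P_sub (show N ≤ N + 1 by omega) (Dy s) g)
  have h2 := dvd_mul_of_dvd_right h1 (PowerSeries.X : S)
  convert h2 using 1
  ring

/-! ### Low order terms -/

theorem P_one (s g : S) : P 1 s g = s * g := by
  have h := P_succ 0 s g
  rw [zero_add, P_zero, zero_add, term_apply] at h
  rw [h]
  simp [rf]

theorem P_two (s g : S) : P 2 s g = s * g + PowerSeries.X * (Dy s * Dx g) := by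
  have h := P_succ 1 s g
  rw [P_one, term_apply] at h
  change P (1 + 1) s g = _
  rw [h]
  simp [rf]

theorem P_at_one (N : ℕ) (s : S) : P (N + 1) s 1 = s := by
  induction N with
  | zero => rw [zero_add, P_one, mul_one]
  | succ N ih =>
    rw [P_succ, ih, term_apply, Dx_iter_one _ (Nat.succ_ne_zero N), mul_zero, smul_zero, mul_zero,
      add_zero]

theorem L_one (s : S) : L s 1 = s := by
  apply eq_of_dvd
  intro N
  have h0 : (PowerSeries.X : S) ^ N ∣ (PowerSeries.X : S) ^ (N + 1) := pow_dvd_pow _ (by omega)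
  have h := h0.trans (dvd_L_sub (N + 1) s 1)
  rwa [P_at_one] at h

theorem L_eq_one (s g : S) : ∃ q : S, L s g = s * g + PowerSeries.X * q := by
  obtain ⟨q, hq⟩ := dvd_L_sub 1 s g
  rw [P_one, pow_one] at hq
  exact ⟨q, by rw [← hq]; ring⟩

theorem L_eq_two (s g : S) : ∃ q : S,
    L s g = s * g + PowerSeries.X * (Dy s * Dx g) + PowerSeries.X ^ 2 * q := by
  obtain ⟨q, hq⟩ := dvd_L_sub 2 s g
  rw [P_two] at hq
  exact ⟨q, by rw [← hq]; ring⟩

theorem cc_L (s g : S) : PowerSeries.constantCoeff (L s g) =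
    PowerSeries.constantCoeff s * PowerSeries.constantCoeff g := by
  obtain ⟨q, hq⟩ := L_eq_one s g
  rw [hq, map_add, map_mul, map_mul, PowerSeries.constantCoeff_X, zero_mul, add_zero]

theorem cc_Dx (s : S) : PowerSeries.constantCoeff (Dx s) =
    MvPolynomial.pderiv 0 (PowerSeries.constantCoeff s) := by
  rw [← PowerSeries.coeff_zero_eq_constantCoeff_apply,
    ← PowerSeries.coeff_zero_eq_constantCoeff_apply]
  exact coeff_ext _ _ _

theorem cc_Dy (s : S) : PowerSeries.constantCoeff (Dy s) =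
    MvPolynomial.pderiv 1 (PowerSeries.constantCoeff s) := by
  rw [← PowerSeries.coeff_zero_eq_constantCoeff_apply,
    ← PowerSeries.coeff_zero_eq_constantCoeff_apply]
  exact coeff_ext _ _ _

/-! ### The algebra -/

/-- The commutant of the two right multiplications. -/
noncomputable def AW : Subalgebra K (Module.End K S) :=
  Subalgebra.centralizer K {rx, ry}

theorem mem_AW {T : Module.End K S} :
    T ∈ AW ↔ (∀ f, T (rx f) = rx (T f)) ∧ ∀ f, T (ry f) = ry (T f) := by
  unfold AW
  rw [Subalgebra.mem_centralizer_iff]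
  constructor
  · intro h
    refine ⟨fun f => ?_, fun f => ?_⟩
    · have := h rx (by simp)
      exact (LinearMap.congr_fun this f).symm
    · have := h ry (by simp)
      exact (LinearMap.congr_fun this f).symm
  · rintro ⟨h1, h2⟩ g hg
    rcases hg with rfl | hg
    · ext f : 1
      exact (h1 f).symm
    · rw [Set.mem_singleton_iff] at hg
      subst hg
      ext f : 1
      exact (h2 f).symm

theorem L_mem (s : S) : L s ∈ AW := mem_AW.mpr ⟨fun f => L_rx s f, fun f => L_ry s f⟩

theorem Dy_sx_pow (a : ℕ) : Dy (sx ^ a) = 0 := by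
  induction a with
  | zero => rw [pow_zero, Dy_one]
  | succ a ih => rw [pow_succ, Dy_mul, ih, Dy_sx, zero_mul, mul_zero, add_zero]

theorem monomial_eq (u : Fin 2 →₀ ℕ) (c : ℂ) :
    (PowerSeries.C (MvPolynomial.monomial u c) : S) =
      (PowerSeries.C c : K) • (sy ^ (u 1) * sx ^ (u 0)) := by
  rw [smul_S, PowerSeries.map_C]
  unfold sx sy
  rw [← map_pow, ← map_pow, ← map_mul, ← map_mul]
  congr 1
  rw [MvPolynomial.monomial_eq, Finsupp.prod_fintype _ _ (fun i => pow_zero _), Fin.prod_univ_two,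
    MvPolynomial.algebraMap_eq]
  ring

theorem T_C {T : Module.End K S} (hT : T ∈ AW) (h1 : T 1 = 0) (f : MvPolynomial (Fin 2) ℂ) :
    T (PowerSeries.C f) = 0 := by
  obtain ⟨hx, hy⟩ := mem_AW.mp hT
  have e1 : ∀ a : ℕ, T (sx ^ a) = 0 := by
    intro a
    induction a with
    | zero => rw [pow_zero, h1]
    | succ a ih =>
      have : rx (sx ^ a) = sx ^ (a + 1) := by
        rw [rx_apply, Dy_sx_pow, mul_zero, add_zero, pow_succ']
      rw [← this, hx, ih, map_zero]
  have e2 : ∀ a b : ℕ, T (sy ^ b * sx ^ a) = 0 := by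
    intro a b
    induction b with
    | zero => rw [pow_zero, one_mul, e1]
    | succ b ih =>
      have : ry (sy ^ b * sx ^ a) = sy ^ (b + 1) * sx ^ a := by
        rw [ry_apply, pow_succ']
        ring
      rw [← this, hy, ih, map_zero]
  induction f using MvPolynomial.induction_on' with
  | monomial u c => rw [monomial_eq, map_smul, e2, smul_zero]
  | add p q hp hq => rw [map_add, map_add, hp, hq, add_zero]

theorem T_eq_zero {T : Module.End K S} (hT : T ∈ AW) (h1 : T 1 = 0) : T = 0 := by
  have key : ∀ N : ℕ, ∀ f : S, (PowerSeries.X : S) ^ N ∣ T f := by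
    intro N
    induction N with
    | zero => intro f; rw [pow_zero]; exact one_dvd _
    | succ N ih =>
      intro f
      have h2 : (PowerSeries.X : S) ∣ f - PowerSeries.C (PowerSeries.constantCoeff f) := by
        rw [PowerSeries.X_dvd_iff, map_sub, PowerSeries.constantCoeff_C, sub_self]
      obtain ⟨g, hg⟩ := h2
      have h3 : f = PowerSeries.C (PowerSeries.constantCoeff f) + (PowerSeries.X : K) • g := by
        rw [X_smul_S, ← hg]
        ring
      rw [h3, map_add, T_C hT h1, zero_add, map_smul, X_smul_S, pow_succ']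
      exact mul_dvd_mul_left _ (ih g)
  ext f : 1
  apply eq_of_dvd
  intro N
  rw [LinearMap.zero_apply, sub_zero]
  exact key N f

theorem T_inj {T T' : Module.End K S} (hT : T ∈ AW) (hT' : T' ∈ AW) (h : T 1 = T' 1) : T = T' := by
  have := T_eq_zero (AW.sub_mem hT hT') (by rw [LinearMap.sub_apply, h, sub_self])
  exact sub_eq_zero.mp this

theorem AW_inj {a b : AW} (h : (a : Module.End K S) 1 = (b : Module.End K S) 1) : a = b :=
  Subtype.ext (T_inj a.2 b.2 h)

theorem AW_eq (a : AW) : (a : Module.End K S) = L ((a : Module.End K S) 1) :=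
  T_inj a.2 (L_mem _) (by rw [L_one])

/-- the element of `AW` with a given value at `1` -/
noncomputable def elt (s : S) : AW := ⟨L s, L_mem s⟩

theorem elt_one (s : S) : (elt s : Module.End K S) 1 = s := L_one s

theorem smul_one' (c : K) (a : AW) :
    ((c • a : AW) : Module.End K S) 1 = c • (a : Module.End K S) 1 := rfl

theorem mul_one' (a b : AW) : ((a * b : AW) : Module.End K S) 1 =
    L ((a : Module.End K S) 1) ((b : Module.End K S) 1) := by
  change (a : Module.End K S) ((b : Module.End K S) 1) = _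
  rw [← AW_eq]

/-- The symbol map. -/
noncomputable def piW : AW →+* MvPolynomial (Fin 2) ℂ where
  toFun a := PowerSeries.constantCoeff ((a : Module.End K S) 1)
  map_one' := by
    change PowerSeries.constantCoeff (1 : S) = 1
    rw [map_one]
  map_zero' := by
    change PowerSeries.constantCoeff (0 : S) = 0
    rw [map_zero]
  map_add' a b := by
    change PowerSeries.constantCoeff ((a : Module.End K S) 1 + (b : Module.End K S) 1) = _
    rw [map_add]
  map_mul' a b := by
    rw [mul_one', cc_L]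

theorem piW_apply (a : AW) : piW a = PowerSeries.constantCoeff ((a : Module.End K S) 1) := rfl

theorem mem_pow_smul {M : Type} [AddCommGroup M] [Module K M] (n : ℕ) (x : M) :
    x ∈ (Ideal.span {(PowerSeries.X : K)} ^ n • ⊤ : Submodule K M) ↔
      ∃ y : M, x = (PowerSeries.X : K) ^ n • y := by
  rw [Ideal.span_singleton_pow, Submodule.ideal_span_singleton_smul,
    Submodule.mem_smul_pointwise_iff_exists]
  constructor
  · rintro ⟨y, -, rfl⟩
    exact ⟨y, rfl⟩
  · rintro ⟨y, rfl⟩
    exact ⟨y, trivial, rfl⟩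

theorem complete_AW : IsAdicComplete (Ideal.span {(PowerSeries.X : K)}) AW := by
  have hmod : ∀ (n : ℕ) (a b : AW), a ≡ b [SMOD (Ideal.span {(PowerSeries.X : K)} ^ n • ⊤ :
      Submodule K AW)] ↔ (PowerSeries.X : S) ^ n ∣
        (a : Module.End K S) 1 - (b : Module.End K S) 1 := by
    intro n a b
    refine SModEq.sub_mem.trans ((mem_pow_smul n (a - b)).trans ?_)
    constructor
    · rintro ⟨y, hy⟩
      refine ⟨(y : Module.End K S) 1, ?_⟩
      rw [← Xpow_smul_S, ← smul_one', ← hy]
      rfl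
    · rintro ⟨q, hq⟩
      refine ⟨elt q, AW_inj ?_⟩
      rw [smul_one', elt_one, Xpow_smul_S, ← hq]
      rfl
  refine { haus' := ?_, prec' := ?_ }
  · intro a ha
    apply AW_inj
    apply eq_of_dvd
    intro N
    exact (hmod N a 0).mp (ha N)
  · intro f hf
    refine ⟨elt (PowerSeries.mk fun n => PowerSeries.coeff n ((f (n + 1) : Module.End K S) 1)),
      fun n => ?_⟩
    rw [hmod, elt_one, PowerSeries.X_pow_dvd_iff]
    intro m hm
    rw [map_sub, PowerSeries.coeff_mk, sub_eq_zero]
    have h1 := (hmod (m + 1) (f (m + 1)) (f n)).mp (hf (by omega))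
    rw [PowerSeries.X_pow_dvd_iff] at h1
    have h2 := h1 m (by omega)
    rw [map_sub, sub_eq_zero] at h2
    exact h2.symm

theorem quantization : IsDeformationQuantization (O := R) (A := AW) PR piW where
  complete := complete_AW
  torsionFree a h := by
    apply AW_inj
    have h1 : (PowerSeries.X : S) * (a : Module.End K S) 1 = 0 := by
      rw [← X_smul_S, ← smul_one', h]
      rfl
    have h2 := (mul_eq_zero.mp h1).resolve_left PowerSeries.X_ne_zero
    rw [h2]
    rfl
  surjective f := ⟨elt (PowerSeries.C f), by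
    rw [piW_apply, elt_one, PowerSeries.constantCoeff_C]⟩
  ker a := by
    rw [piW_apply, ← PowerSeries.X_dvd_iff]
    constructor
    · rintro ⟨q, hq⟩
      refine ⟨elt q, AW_inj ?_⟩
      rw [smul_one', elt_one, X_smul_S, hq]
    · rintro ⟨b, rfl⟩
      rw [smul_one', X_smul_S]
      exact dvd_mul_right _ _
  linear c a := by
    rw [piW_apply, piW_apply, smul_one', smul_S, map_mul, PowerSeries.map_C,
      PowerSeries.constantCoeff_C, Algebra.smul_def]
  bracket a b := by
    set s := (a : Module.End K S) 1 with hs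
    set t := (b : Module.End K S) 1 with ht
    obtain ⟨q, hq⟩ := L_eq_two s t
    obtain ⟨r, hr⟩ := L_eq_two t s
    refine ⟨elt (Dy s * Dx t - Dy t * Dx s + PowerSeries.X * (q - r)), AW_inj ?_, ?_⟩
    · rw [smul_one', elt_one, X_smul_S]
      change ((a * b : AW) : Module.End K S) 1 - ((b * a : AW) : Module.End K S) 1 = _
      rw [mul_one', mul_one', ← hs, ← ht, hq, hr]
      ring
    · rw [piW_apply, elt_one, piW_apply, piW_apply, ← hs, ← ht]
      change _ = pb _ _
      rw [pb_apply, map_add, map_sub, map_mul, map_mul, map_mul, PowerSeries.constantCoeff_X,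
        zero_mul, add_zero, cc_Dy, cc_Dx, cc_Dy, cc_Dx]
      ring

end Pool.Agent.Q221.NN
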